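import Pool.Agent.H717.NL.Stmts2

set_option autoImplicit false

/-!
# Multipoint evaluation (helper264, for helper717)
-/

open Polynomial

namespace Pool.Agent.H264.NL

open Pool.Agent.H717.NL

theorem coeff_toPoly {m : ℕ} (v : Fin m → ℝ) (i : ℕ) :
    (toPoly v).coeff i = if h : i < m then v ⟨i, h⟩ else 0 := by
  unfold toPoly
  rw [finsetSum_coeff]
  simp only [coeff_C_mul, coeff_X_pow]
  split_ifs with h
  · rw [Finset.sum_eq_single ⟨i, h⟩]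
    · simp
    · intro b _ hb
      have : i ≠ (b : ℕ) := fun e => hb (Fin.ext e.symm)
      simp [this]
    · simp
  · apply Finset.sum_eq_zero
    intro b _
    have : i ≠ (b : ℕ) := fun e => h (e ▸ b.2)
    simp [this]

theorem toPoly_coeff (P : ℝ[X]) (d : ℕ) (h : P.degree < (d : WithBot ℕ)) :
    toPoly (fun i : Fin d => P.coeff i) = P := by
  ext i
  rw [coeff_toPoly]
  split_ifs with hi
  · rfl
  · refine (coeff_eq_zero_of_degree_lt (h.trans_le ?_)).symm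
    exact_mod_cast not_lt.1 hi

theorem monic_split (P : ℝ[X]) (d : ℕ) (hm : P.Monic) (hd : P.natDegree = d) :
    X ^ d + toPoly (fun i : Fin d => P.coeff i) = P := by
  ext i
  rw [coeff_add, coeff_toPoly, coeff_X_pow]
  rcases lt_trichotomy i d with h | h | h
  · rw [if_neg h.ne, dif_pos h, zero_add]
  · subst h
    have h1 : P.coeff i = 1 := by
      rw [← hd]
      exact hm.coeff_natDegree
    rw [if_pos rfl, dif_neg (lt_irrefl _), add_zero, h1]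
  · rw [if_neg h.ne', dif_neg (by omega), add_zero, coeff_eq_zero_of_natDegree_lt (by omega)]

/-- the matrices `diag(X - t, 1)` -/
def dm (x : ℝ) (i j q : Fin 2) : ℝ :=
  if i = 0 ∧ j = 0 then (if q = 0 then -x else 1) else if i = 1 ∧ j = 1 ∧ q = 0 then 1 else 0

theorem linMat_dm (x : ℝ) : linMat (dm x) = Matrix.diagonal ![X - C x, 1] := by
  ext1 i j
  unfold linMat dm
  rw [Matrix.of_apply]
  fin_cases i <;> fin_cases j <;> simp [Matrix.diagonal] <;> ring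

theorem prod_dm {n : ℕ} (t : Fin n → ℝ) :
    ((List.ofFn fun a => linMat (dm (t a))).prod 0 0) = ∏ a, (X - C (t a)) := by
  have h1 : (fun a => linMat (dm (t a))) =
      fun a => Matrix.diagonalRingHom (Fin 2) ℝ[X] (![X - C (t a), 1]) := by
    funext a
    rw [linMat_dm]
    rfl
  rw [h1]
  have h2 : (List.ofFn fun a => Matrix.diagonalRingHom (Fin 2) ℝ[X] (![X - C (t a), 1])) =
      (List.ofFn fun a => (![X - C (t a), 1] : Fin 2 → ℝ[X])).map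
        (Matrix.diagonalRingHom (Fin 2) ℝ[X]) := by
    rw [List.map_ofFn]
    rfl
  rw [h2, ← map_list_prod, List.prod_ofFn]
  show Matrix.diagonal (∏ a, (![X - C (t a), 1] : Fin 2 → ℝ[X])) 0 0 = _
  rw [Matrix.diagonal_apply_eq, Finset.prod_apply]
  rfl

theorem dm_cost {n : ℕ} (a : Fin n) (i j q : Fin 2) :
    Cmp (fun t : Fin n → ℝ => dm (t a) i j q) 4 := by
  unfold dm
  split_ifs
  · exact ((Cmp.proj (α := ℝ) a).neg').mono (by omega)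
  · exact Cmp.one.mono (by omega)
  · exact Cmp.one.mono (by omega)
  · exact Cmp.zero.mono (by omega)

theorem cG {K2 : ℕ} (h2 : ∀ k : ℕ, Cmp (β := Fin 2 → Fin 2 → Fin (2 ^ k + 1) → ℝ)
    (fun M : Fin (2 ^ k) → Fin 2 → Fin 2 → Fin 2 → ℝ => fun i j q =>
      ((List.ofFn fun a => linMat (M a)).prod i j).coeff q) (K2 * 2 ^ k * (k + 1) ^ 3)) (k : ℕ) :
    Cmp (fun t : Fin (2 ^ k) → ℝ => fun i : Fin (2 ^ k) => (∏ a, (X - C (t a)) : ℝ[X]).coeff i)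
      (32 * 2 ^ k + K2 * 2 ^ k * (k + 1) ^ 3) := by
  have h3 : Cmp (fun t : Fin (2 ^ k) → ℝ => fun a => dm (t a)) (2 ^ k * (2 * (2 * (2 * 4)))) :=
    Cmp.pi fun a => Cmp.pi fun i => Cmp.pi fun j => Cmp.pi fun q => dm_cost a i j q
  have h4 : Cmp (fun B : Fin 2 → Fin 2 → Fin (2 ^ k + 1) → ℝ =>
      fun i : Fin (2 ^ k) => B 0 0 i.castSucc) 0 :=
    Cmp.free (fun p => (0, (0, (p.1.castSucc, p.2)))) fun _ _ => rfl
  refine (((h3.comp (h2 k)).comp h4).mono ?_).congr fun t => ?_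
  · omega
  · funext i
    exact congrArg (fun P : ℝ[X] => P.coeff (i : ℕ)) (prod_dm t)

theorem half {K1 K2 E : ℕ} (h1 : ∀ k m d : ℕ, m ≤ 2 ^ k → d ≤ 2 ^ k →
    Cmp (fun p : (Fin m → ℝ) × (Fin d → ℝ) => fun i : Fin d =>
      (toPoly p.1 %ₘ (X ^ d + toPoly p.2)).coeff i) (K1 * 2 ^ k * (k + 1) ^ 2))
    (h2 : ∀ k : ℕ, Cmp (β := Fin 2 → Fin 2 → Fin (2 ^ k + 1) → ℝ)
    (fun M : Fin (2 ^ k) → Fin 2 → Fin 2 → Fin 2 → ℝ => fun i j q =>
      ((List.ofFn fun a => linMat (M a)).prod i j).coeff q) (K2 * 2 ^ k * (k + 1) ^ 3))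
    (k m : ℕ) (hm : m ≤ 2 ^ (k + 1))
    (ih : Cmp (fun p : (Fin (2 ^ k) → ℝ) × (Fin (2 ^ k) → ℝ) => fun j : Fin (2 ^ k) =>
      (toPoly p.1).eval (p.2 j)) E) :
    Cmp (fun p : (Fin m → ℝ) × (Fin (2 ^ k) → ℝ) => fun j : Fin (2 ^ k) =>
      (toPoly p.1).eval (p.2 j))
      ((32 * 2 ^ k + K2 * 2 ^ k * (k + 1) ^ 3) + K1 * 2 ^ (k + 1) * (k + 1 + 1) ^ 2 + E) := by
  have s1 : Cmp (fun p : (Fin m → ℝ) × (Fin (2 ^ k) → ℝ) => fun i : Fin (2 ^ k) =>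
      (∏ a, (X - C (p.2 a)) : ℝ[X]).coeff i) (32 * 2 ^ k + K2 * 2 ^ k * (k + 1) ^ 3) :=
    (Cmp.snd (α := Fin m → ℝ) (β := Fin (2 ^ k) → ℝ)).on (cG h2 k)
  have s2 : Cmp (fun q : ((Fin m → ℝ) × (Fin (2 ^ k) → ℝ)) × (Fin (2 ^ k) → ℝ) =>
      (q.1.1, q.2)) 0 :=
    ((Cmp.fst (α := (Fin m → ℝ) × (Fin (2 ^ k) → ℝ)) (β := Fin (2 ^ k) → ℝ)).on
      (Cmp.fst (α := Fin m → ℝ) (β := Fin (2 ^ k) → ℝ))).pair Cmp.snd
  have hle : (2 : ℕ) ^ k ≤ 2 ^ (k + 1) := Nat.pow_le_pow_right (by norm_num) (by omega)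
  have s3 := s1.bind (s2.on (h1 (k + 1) m (2 ^ k) hm hle))
  have s4 : Cmp (fun q : ((Fin m → ℝ) × (Fin (2 ^ k) → ℝ)) × (Fin (2 ^ k) → ℝ) =>
      (q.2, q.1.2)) 0 :=
    (Cmp.snd (α := (Fin m → ℝ) × (Fin (2 ^ k) → ℝ)) (β := Fin (2 ^ k) → ℝ)).pair
      ((Cmp.fst (α := (Fin m → ℝ) × (Fin (2 ^ k) → ℝ)) (β := Fin (2 ^ k) → ℝ)).on
        (Cmp.snd (α := Fin m → ℝ) (β := Fin (2 ^ k) → ℝ)))
  have s5 := s3.bind (s4.on ih)
  refine s5.congr fun p => ?_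
  funext j
  have hmon : (∏ a, (X - C (p.2 a)) : ℝ[X]).Monic := monic_prod_of_monic _ _ fun a _ =>
    monic_X_sub_C _
  have hdeg : (∏ a, (X - C (p.2 a)) : ℝ[X]).natDegree = 2 ^ k := by
    rw [natDegree_prod_of_monic _ _ fun a _ => monic_X_sub_C _]
    simp
  show (toPoly (fun i : Fin (2 ^ k) => (toPoly p.1 %ₘ (X ^ (2 ^ k) + toPoly (fun i : Fin (2 ^ k) =>
    (∏ a, (X - C (p.2 a)) : ℝ[X]).coeff i))).coeff i)).eval (p.2 j) = _
  rw [monic_split _ _ hmon hdeg, toPoly_coeff]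
  · have hroot : (∏ a, (X - C (p.2 a)) : ℝ[X]).eval (p.2 j) = 0 := by
      rw [eval_prod]
      exact Finset.prod_eq_zero (Finset.mem_univ j) (by simp)
    have h5 := modByMonic_add_div (toPoly p.1) (∏ a, (X - C (p.2 a)) : ℝ[X])
    have h6 := congrArg (eval (p.2 j)) h5
    rw [eval_add, eval_mul, hroot, zero_mul, add_zero] at h6
    exact h6
  · have h7 := degree_modByMonic_lt (toPoly p.1) hmon
    rw [degree_eq_natDegree hmon.ne_zero, hdeg] at h7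
    exact h7

theorem app {a n : ℕ} (h : n ≤ a + a) : Cmp (fun p : (Fin a → ℝ) × (Fin a → ℝ) =>
    fun j : Fin n => if hj : (j : ℕ) < a then p.1 ⟨j, hj⟩ else p.2 ⟨j - a, by omega⟩) 0 := by
  refine Cmp.free (fun q : Fin n × Unit => if hj : (q.1 : ℕ) < a then
    Sum.inl ((⟨q.1, hj⟩ : Fin a), q.2) else Sum.inr ((⟨q.1 - a, by omega⟩ : Fin a), q.2)) ?_
  rintro p ⟨j, u⟩
  by_cases hj : (j : ℕ) < a
  · show (if hj : (j : ℕ) < a then p.1 ⟨j, hj⟩ else p.2 ⟨j - a, by omega⟩) = _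
    simp only [hj, dite_true]
    rfl
  · show (if hj : (j : ℕ) < a then p.1 ⟨j, hj⟩ else p.2 ⟨j - a, by omega⟩) = _
    simp only [hj, dite_false]
    rfl

theorem t_mpe (h1 : S_mod) (h2 : S_prod2) : S_mpe := by
  obtain ⟨K1, h1⟩ := h1
  obtain ⟨K2, h2⟩ := h2
  refine ⟨32 + K2 + 2 * K1, fun k => ?_⟩
  induction k with
  | zero =>
    intro m hm
    have h3 : Cmp (fun p : (Fin m → ℝ) × (Fin (2 ^ 0) → ℝ) => fun j : Fin (2 ^ 0) =>
        (toPoly p.1).eval (p.2 j)) (2 ^ 0 * 3) := by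
      refine Cmp.pi fun j => ?_
      have h4 : m = 0 ∨ m = 1 := by
        rw [pow_zero] at hm
        omega
      rcases h4 with rfl | rfl
      · refine Cmp.zero.congr fun p => ?_
        simp [toPoly]
      · refine (((Cmp.fst (α := Fin 1 → ℝ) (β := Fin (2 ^ 0) → ℝ)).on
          (Cmp.proj (α := ℝ) (0 : Fin 1))).mono (by omega)).congr fun p => ?_
        simp [toPoly]
    exact h3.mono (by simp; omega)
  | succ k ih =>
    intro m hm
    have h3 := half h1 h2 k m hm (ih (2 ^ k) le_rfl)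
    have e1 : Cmp (fun p : (Fin m → ℝ) × (Fin (2 ^ (k + 1)) → ℝ) =>
        (p.1, fun i : Fin (2 ^ k) => p.2 ⟨i, by have := i.2; rw [pow_succ]; omega⟩)) 0 :=
      (Cmp.fst (α := Fin m → ℝ) (β := Fin (2 ^ (k + 1)) → ℝ)).pair
        ((Cmp.snd (α := Fin m → ℝ) (β := Fin (2 ^ (k + 1)) → ℝ)).on (Cmp.reindex (α := ℝ)
          (fun i : Fin (2 ^ k) => (⟨i, by have := i.2; rw [pow_succ]; omega⟩ :
            Fin (2 ^ (k + 1))))))
    have e2 : Cmp (fun p : (Fin m → ℝ) × (Fin (2 ^ (k + 1)) → ℝ) =>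
        (p.1, fun i : Fin (2 ^ k) => p.2 ⟨2 ^ k + i, by have := i.2; rw [pow_succ]; omega⟩)) 0 :=
      (Cmp.fst (α := Fin m → ℝ) (β := Fin (2 ^ (k + 1)) → ℝ)).pair
        ((Cmp.snd (α := Fin m → ℝ) (β := Fin (2 ^ (k + 1)) → ℝ)).on (Cmp.reindex (α := ℝ)
          (fun i : Fin (2 ^ k) => (⟨2 ^ k + i, by have := i.2; rw [pow_succ]; omega⟩ :
            Fin (2 ^ (k + 1))))))
    have h4 := ((e1.on h3).pair (e2.on h3)).comp
      (app (a := 2 ^ k) (n := 2 ^ (k + 1)) (by rw [pow_succ]; omega))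
    refine (h4.mono ?_).congr fun p => ?_
    · have key : 32 + K2 * (k + 1) ^ 3 + 2 * K1 * (k + 2) ^ 2 + (32 + K2 + 2 * K1) * (k + 1) ^ 4 ≤
          (32 + K2 + 2 * K1) * (k + 2) ^ 4 := by
        have e : (k + 2) ^ 4 = (k + 1) ^ 4 + (4 * (k + 1) ^ 3 + 6 * (k + 1) ^ 2 + 4 * (k + 1) + 1) := by
          ring
        rw [e]
        nlinarith [Nat.zero_le (K2 * (k + 1) ^ 3), Nat.zero_le (K1 * (k + 1) ^ 3),
          Nat.zero_le (K2 * (k + 1) ^ 2), Nat.zero_le (K1 * (k + 1) ^ 2), Nat.zero_le (K2 * k),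
          Nat.zero_le (K1 * k), Nat.zero_le (k ^ 3), Nat.zero_le (k ^ 2)]
      have h5 := Nat.mul_le_mul_left (2 ^ (k + 1)) key
      have e1 : 2 ^ (k + 1) * (32 + K2 * (k + 1) ^ 3 + 2 * K1 * (k + 2) ^ 2 +
          (32 + K2 + 2 * K1) * (k + 1) ^ 4) = 32 * 2 ^ k + K2 * 2 ^ k * (k + 1) ^ 3 +
          K1 * 2 ^ (k + 1) * (k + 1 + 1) ^ 2 + (32 + K2 + 2 * K1) * 2 ^ k * (k + 1) ^ 4 +
          (32 * 2 ^ k + K2 * 2 ^ k * (k + 1) ^ 3 +
          K1 * 2 ^ (k + 1) * (k + 1 + 1) ^ 2 + (32 + K2 + 2 * K1) * 2 ^ k * (k + 1) ^ 4) := by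
        rw [pow_succ]
        ring
      have e2 : (32 + K2 + 2 * K1) * 2 ^ (k + 1) * (k + 1 + 1) ^ 4 =
          2 ^ (k + 1) * ((32 + K2 + 2 * K1) * (k + 2) ^ 4) := by ring
      rw [e2]
      refine le_trans (le_of_eq ?_) h5
      rw [e1]
      ring
    · funext j
      by_cases hj : (j : ℕ) < 2 ^ k
      · simp only [hj, dite_true]
      · simp only [hj, dite_false]
        have h6 : (⟨2 ^ k + ((j : ℕ) - 2 ^ k), by have := j.2; omega⟩ : Fin (2 ^ (k + 1))) = j :=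
          Fin.ext (by show 2 ^ k + ((j : ℕ) - 2 ^ k) = j; omega)
        rw [h6]

end Pool.Agent.H264.NL
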